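import Pool.Agent.Q31.GLW.Stm

set_option autoImplicit false

namespace Pool.Agent.Q30.GLW

open Cardinal Pool.Agent.Q31.GLW

theorem cl_countable {G : Type} [Group G] (s : Set G) (hs : s.Countable) :
    (Subgroup.closure s : Set G).Countable := by
  have : Countable s := hs.to_subtype
  have : Countable (FreeGroup s) := by
    unfold FreeGroup
    infer_instance
  have h : Subgroup.closure s = (FreeGroup.lift (Subtype.val : s → G)).range := by
    rw [FreeGroup.range_lift_eq_closure, Subtype.range_coe]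
  rw [h, MonoidHom.coe_range]
  exact Set.countable_range _

theorem dir {G W : Type} [Group G] [LinearOrder W] (h : W → G) (S : Set W) (x : G)
    (hx : x ∈ Subgroup.closure (h '' S)) :
    x = 1 ∨ ∃ σ ∈ S, x ∈ Subgroup.closure (h '' Set.Iic σ) := by
  induction hx using Subgroup.closure_induction with
  | mem x hx =>
    obtain ⟨σ, hσ, rfl⟩ := hx
    exact Or.inr ⟨σ, hσ, Subgroup.subset_closure ⟨σ, le_rfl, rfl⟩⟩
  | one => exact Or.inl rfl
  | mul x y _ _ hx hy =>
    rcases hx with rfl | ⟨σ, hσ, hx⟩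
    · simpa using hy
    rcases hy with rfl | ⟨τ, hτ, hy⟩
    · exact Or.inr ⟨σ, hσ, by simpa using hx⟩
    rcases le_total σ τ with hst | hst
    · exact Or.inr ⟨τ, hτ, mul_mem (Subgroup.closure_mono
        (Set.image_mono (Set.Iic_subset_Iic.2 hst)) hx) hy⟩
    · exact Or.inr ⟨σ, hσ, mul_mem hx (Subgroup.closure_mono
        (Set.image_mono (Set.Iic_subset_Iic.2 hst)) hy)⟩
  | inv x _ hx =>
    rcases hx with rfl | ⟨σ, hσ, hx⟩
    · exact Or.inl (by simp)
    · exact Or.inr ⟨σ, hσ, inv_mem hx⟩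

theorem t_TRF : S_TRF := by
  classical
  intro G T _ P sol hT hP1 hstep
  rcases isEmpty_or_nonempty T with hE | hN
  · refine ⟨⊥, fun x hx => ?_, fun τ => (hE.false τ).elim⟩
    rw [Subgroup.mem_bot.1 hx]; exact hP1
  -- the index set
  let W : Type := (ℵ₁ : Cardinal.{0}).ord.ToType
  have hW : #W = ℵ₁ := mk_ord_toType _
  obtain ⟨f, hf⟩ : ∃ f : W → T, Function.Surjective f := by
    have : #T ≤ #W := hW ▸ hT
    obtain ⟨e⟩ := Cardinal.le_def _ _ |>.1 this
    exact ⟨Function.invFun e, Function.invFun_surjective e.injective⟩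
  have hcount : ∀ w : W, (Set.Iio w).Countable := by
    intro w
    rw [← Cardinal.le_aleph0_iff_set_countable, ← Cardinal.lt_aleph_one_iff]
    exact mk_Iio_toType_ord_lt w
  have key : ∀ (K : Subgroup G) (τ : T), ∃ h : G, (K : Set G).Countable → (∀ k ∈ K, P k) →
      sol τ h ∧ ∀ x ∈ Subgroup.closure ((K : Set G) ∪ {h}), P x := by
    intro K τ
    by_cases h1 : (K : Set G).Countable ∧ ∀ k ∈ K, P k
    · obtain ⟨h, hh⟩ := hstep K h1.1 h1.2 τ
      exact ⟨h, fun _ _ => hh⟩
    · exact ⟨1, fun a b => (h1 ⟨a, b⟩).elim⟩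
  choose F hF using key
  let h : W → G := WellFounded.fix (r := ((· < ·) : W → W → Prop)) wellFounded_lt
    (fun w ih => F (Subgroup.closure {x | ∃ (σ : W) (hσ : σ < w), ih σ hσ = x}) (f w))
  have hh : ∀ w, h w = F (Subgroup.closure (h '' Set.Iio w)) (f w) := by
    intro w
    have := WellFounded.fix_eq (r := ((· < ·) : W → W → Prop)) wellFounded_lt
      (fun w (ih : ∀ σ, σ < w → G) =>
        F (Subgroup.closure {x | ∃ (σ : W) (hσ : σ < w), ih σ hσ = x}) (f w)) w
    refine this.trans ?_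
    congr 2
    ext x
    constructor
    · rintro ⟨σ, hσ, rfl⟩; exact ⟨σ, hσ, rfl⟩
    · rintro ⟨σ, hσ, rfl⟩; exact ⟨σ, hσ, rfl⟩
  have hP : ∀ w, ∀ x ∈ Subgroup.closure (h '' Set.Iio w), P x := by
    intro w
    induction w using WellFoundedLT.induction with
    | _ w ih =>
    intro x hx
    rcases dir h _ x hx with rfl | ⟨σ, hσ, hx⟩
    · exact hP1
    · have h1 := hF (Subgroup.closure (h '' Set.Iio σ)) (f σ)
        (cl_countable _ ((hcount σ).image h)) (ih σ hσ)
      rw [← hh σ] at h1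
      refine h1.2 x (Subgroup.closure_mono ?_ hx)
      rintro _ ⟨ρ, hρ, rfl⟩
      rcases lt_or_eq_of_le (show ρ ≤ σ from hρ) with h2 | h2
      · exact Or.inl (Subgroup.subset_closure ⟨ρ, h2, rfl⟩)
      · exact Or.inr (by rw [h2]; rfl)
  refine ⟨Subgroup.closure (h '' Set.univ), ?_, ?_⟩
  · intro x hx
    rcases dir h _ x hx with rfl | ⟨σ, hσ, hx⟩
    · exact hP1
    · have h1 := hF (Subgroup.closure (h '' Set.Iio σ)) (f σ)
        (cl_countable _ ((hcount σ).image h)) (hP σ)
      rw [← hh σ] at h1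
      refine h1.2 x (Subgroup.closure_mono ?_ hx)
      rintro _ ⟨ρ, hρ, rfl⟩
      rcases lt_or_eq_of_le (show ρ ≤ σ from hρ) with h2 | h2
      · exact Or.inl (Subgroup.subset_closure ⟨ρ, h2, rfl⟩)
      · exact Or.inr (by rw [h2]; rfl)
  · intro τ
    obtain ⟨w, rfl⟩ := hf τ
    have h1 := hF (Subgroup.closure (h '' Set.Iio w)) (f w)
        (cl_countable _ ((hcount w).image h)) (hP w)
    rw [← hh w] at h1
    exact ⟨h w, Subgroup.subset_closure ⟨w, trivial, rfl⟩, h1.1⟩

end Pool.Agent.Q30.GLW
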